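import Pool.Agent.Helper58.FS.Defs

/-!
# Locally trivial classes: the local conditions are satisfied on a subgroup of finite index
-/

namespace Pool.Agent.Helper21.FS

open Pool.Agent.Helper58.FS

section Coprime

variable {G : Type*} [Group G] {M : Type*} [AddCommGroup M]

/-- Averaging over a group of order prime to `p`. -/
theorem coboundary_of_coprime {H : Subgroup G} {a : G → M →+ M} (U : Subgroup G) [U.Normal]
    [Finite (G ⧸ U)] {p : ℕ} [hp : Fact p.Prime] (hM : ∃ k : ℕ, ∀ m : M, p ^ k • m = 0)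
    (D : Subgroup G) (hDH : D ≤ H) (hU : ∀ h ∈ D, ∃ e : ℕ, e.Coprime p ∧ h ^ e ∈ U)
    {d : G → M} (hd : ∀ g ∈ H, ∀ h ∈ H, d (g * h) = d g + a g (d h))
    (hd0 : ∀ g ∈ D, g ∈ U → d g = 0) :
    ∃ m : M, ∀ g ∈ D, d g = a g m - m := by
  classical
  let D' : Subgroup (G ⧸ U) := D.map (QuotientGroup.mk' U)
  have : Fintype D' := Fintype.ofFinite _
  have hr : ∀ y : D', ∃ g ∈ D, QuotientGroup.mk' U g = y := fun y => y.2
  choose r hrD hry using hr
  -- the order is prime to `p`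
  have hcard : ¬ p ∣ Nat.card D' := by
    intro hdvd
    obtain ⟨x, hx⟩ := exists_prime_orderOf_dvd_card' p hdvd
    obtain ⟨e, he, heU⟩ := hU (r x) (hrD x)
    have h1 : x ^ e = 1 := by
      apply Subtype.ext
      change (x : G ⧸ U) ^ e = 1
      rw [← hry x, ← map_pow]
      exact (QuotientGroup.eq_one_iff _).2 heU
    have h2 : p ∣ e := by
      rw [← hx]
      exact orderOf_dvd_of_pow_eq_one h1
    have h3 : p ∣ 1 := by
      rw [← he]
      exact Nat.dvd_gcd h2 dvd_rfl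
    exact hp.out.one_lt.ne' (Nat.dvd_one.1 h3)
  have hkey : ∀ g ∈ D, ∀ g' ∈ D, QuotientGroup.mk' U g = QuotientGroup.mk' U g' → d g = d g' := by
    intro g hg g' hg' hgg
    have hu : g⁻¹ * g' ∈ U := QuotientGroup.eq.1 hgg
    have huD : g⁻¹ * g' ∈ D := D.mul_mem (D.inv_mem hg) hg'
    have h1 := hd g (hDH hg) (g⁻¹ * g') (hDH huD)
    rw [mul_inv_cancel_left, hd0 _ huD hu, map_zero, add_zero] at h1
    exact h1.symm
  have hn : ∀ g ∈ D, Nat.card D' • d g = (∑ y, d (r y)) - a g (∑ y, d (r y)) := by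
    intro g hg
    have hg' : QuotientGroup.mk' U g ∈ D' := ⟨g, hg, rfl⟩
    have h1 : ∑ y, d (g * r y) = ∑ y, d (r y) := by
      rw [← Equiv.sum_comp (Equiv.mulLeft (⟨_, hg'⟩ : D')) (fun y => d (r y))]
      refine Finset.sum_congr rfl fun y _ => ?_
      apply hkey _ (D.mul_mem hg (hrD y)) _ (hrD _)
      rw [map_mul, hry, hry]
      rfl
    have h2 : ∑ y, d (g * r y) = Nat.card D' • d g + a g (∑ y, d (r y)) := by
      rw [map_sum, Nat.card_eq_fintype_card, ← Finset.card_univ, ← Finset.sum_const,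
        ← Finset.sum_add_distrib]
      exact Finset.sum_congr rfl fun y _ => hd g (hDH hg) _ (hDH (hrD y))
    rw [eq_sub_iff_add_eq, ← h2, h1]
  obtain ⟨k, hk⟩ := hM
  have hco : IsCoprime ((Nat.card D' : ℕ) : ℤ) ((p ^ k : ℕ) : ℤ) := by
    rw [Nat.isCoprime_iff_coprime]
    apply Nat.Coprime.pow_right
    rw [Nat.coprime_comm]
    exact (Nat.Prime.coprime_iff_not_dvd hp.out).2 hcard
  obtain ⟨u, v, huv⟩ := hco
  refine ⟨-(u • ∑ y, d (r y)), fun g hg => ?_⟩
  have h1 : u • (Nat.card D' • d g) = d g := by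
    calc u • (Nat.card D' • d g)
        = (u * ((Nat.card D' : ℕ) : ℤ)) • d g := by rw [mul_smul, natCast_zsmul]
      _ = (u * ((Nat.card D' : ℕ) : ℤ)) • d g + (v * ((p ^ k : ℕ) : ℤ)) • d g := by
          rw [mul_smul v, natCast_zsmul, hk, smul_zero, add_zero]
      _ = d g := by rw [← add_smul, huv, one_smul]
  rw [← h1, hn g hg, map_neg, map_zsmul, smul_sub]
  abel

/-- Transport of a local condition by an element of `H`. -/
theorem local_smul {X : Type*} [MulAction G X] {H : Subgroup G} {a : G → M →+ M}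
    (ham : ∀ g ∈ H, ∀ h ∈ H, a (g * h) = (a g).comp (a h)) {d : G → M}
    (hd : ∀ g ∈ H, ∀ h ∈ H, d (g * h) = d g + a g (d h)) {y : X} {h : G} (hh : h ∈ H) {m : M}
    (hm : ∀ g ∈ H, g • y = y → d g = a g m - m) :
    ∀ g ∈ H, g • (h • y) = h • y → d g = a g (a h m - d h) - (a h m - d h) := by
  intro g hg hgy
  -- `g h = h g'`
  have hg' : h⁻¹ * g * h ∈ H := H.mul_mem (H.mul_mem (H.inv_mem hh) hg) hh
  have hgy' : (h⁻¹ * g * h) • y = y := by
    rw [mul_smul, mul_smul, hgy, inv_smul_smul]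
  have h1 := hm _ hg' hgy'
  have e : g * h = h * (h⁻¹ * g * h) := by group
  have h2 : d g + a g (d h) = d h + a h (d (h⁻¹ * g * h)) := by
    rw [← hd g hg h hh, ← hd h hh _ hg', e]
  have h3 : a g (a h m) = a h (a (h⁻¹ * g * h) m) := by
    have h4 := ham g hg h hh
    have h5 := ham h hh _ hg'
    rw [← e, h4] at h5
    exact congrArg (fun f => f m) h5
  rw [h1, map_sub, ← h3] at h2
  rw [map_sub]
  have h6 : d g = d h + (a g (a h m) - a h m) - a g (d h) := by
    rw [← h2, add_sub_cancel_right]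
  rw [h6]
  abel

end Coprime

variable {G : Type*} [Group G] [TopologicalSpace G] [IsTopologicalGroup G] [CompactSpace G]
  (X : Type*) [MulAction G X] {M : Type*} [AddCommGroup M]

open Classical in
/-- The values on the stabilizers of the points of `F`, by classes modulo `U`. -/
noncomputable def vals (F : Set X) (H U : Subgroup G) : (G → M) →+ (F × (G ⧸ U) → M) where
  toFun d x := if h : ∃ g ∈ H, g • (x.1 : X) = x.1 ∧ (QuotientGroup.mk g : G ⧸ U) = x.2 then
    d (Classical.choose h) else 0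
  map_zero' := by
    funext x
    by_cases h : ∃ g ∈ H, g • (x.1 : X) = x.1 ∧ (QuotientGroup.mk g : G ⧸ U) = x.2
    · rw [dif_pos h]
      rfl
    · rw [dif_neg h]
      rfl
  map_add' d d' := by
    funext x
    rw [Pi.add_apply]
    by_cases h : ∃ g ∈ H, g • (x.1 : X) = x.1 ∧ (QuotientGroup.mk g : G ⧸ U) = x.2
    · rw [dif_pos h, dif_pos h, dif_pos h]
      rfl
    · rw [dif_neg h, dif_neg h, dif_neg h, add_zero]

omit [IsTopologicalGroup G] [CompactSpace G] in
theorem vals_zero {F : Set X} {H U : Subgroup G} {a : G → M →+ M} {d : G → M}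
    (hd : d ∈ Zloc X a H U) (h0 : vals X F H U d = 0) (y : X) (hy : y ∈ F) (g : G) (hg : g ∈ H)
    (hgy : g • y = y) : d g = 0 := by
  classical
  have h : ∃ g' ∈ H, g' • y = y ∧ (QuotientGroup.mk g' : G ⧸ U) = QuotientGroup.mk g :=
    ⟨g, hg, hgy, rfl⟩
  have h1 := congrFun h0 (⟨y, hy⟩, QuotientGroup.mk g)
  have h2 : vals (M := M) X F H U d (⟨y, hy⟩, QuotientGroup.mk g) = d (Classical.choose h) :=
    dif_pos h
  rw [h2] at h1
  obtain ⟨hc1, hc2, hc3⟩ := Classical.choose_spec h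
  have h3 : d (Classical.choose h) = 0 := h1
  have hu : (Classical.choose h)⁻¹ * g ∈ U := QuotientGroup.eq.1 hc3
  have huH : (Classical.choose h)⁻¹ * g ∈ H := H.mul_mem (H.inv_mem hc1) hg
  have huy : ((Classical.choose h)⁻¹ * g) • y = y := by
    rw [mul_smul, hgy, inv_smul_eq_iff]
    exact hc2.symm
  have h4 := hd.1 _ hc1 _ huH
  rw [mul_inv_cancel_left, h3, hd.2.2 y _ ⟨huH, hu⟩ huy, map_zero, add_zero] at h4
  exact h4

/-- A2: the locally trivial classes have finite index in the classes that vanish on the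
stabilizers in `U`. -/
theorem a2 {C : Subgroup G} {p : ℕ} [Fact p.Prime] (hA : ArithHyp X C p)
    {H : Subgroup G} (hH : H ≤ C) (hV : ∃ V : Subgroup G, IsOpen (V : Set G) ∧ V ⊓ C ≤ H)
    {a : G → M →+ M} (ha : Act H a) [Finite M] (hM : ∃ k : ℕ, ∀ m : M, p ^ k • m = 0)
    (U : Subgroup G) (hN : U.Normal) (hU : IsOpen (U : Set G))
    (hUa : ∀ u ∈ U ⊓ H, a u = AddMonoidHom.id M) :
    (Zsh X a H).relIndex (Zloc X a H U) ≠ 0 := by
  classical
  obtain ⟨V, hVo, hV⟩ := hV
  -- an open normal subgroup of `U ⊓ V`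
  have hUV : IsOpen ((U ⊓ V : Subgroup G) : Set G) := hU.inter hVo
  have hfq : Finite (G ⧸ (U ⊓ V)) := Subgroup.quotient_finite_of_isOpen _ hUV
  have hfi : (U ⊓ V).FiniteIndex := Subgroup.finiteIndex_of_finite_quotient
  have hfU : Finite (G ⧸ U) := Subgroup.quotient_finite_of_isOpen _ hU
  have hWo : IsOpen ((U ⊓ V).normalCore : Set G) :=
    Subgroup.isOpen_of_isClosed_of_finiteIndex _
      ((U ⊓ V).normalCore_isClosed (Subgroup.isClosed_of_isOpen _ hUV))
  obtain ⟨F, hF, hFX⟩ := hA (U ⊓ V).normalCore inferInstance hWo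
  have hWle : (U ⊓ V).normalCore ≤ U ⊓ V := Subgroup.normalCore_le _
  have hfF : Finite F := hF
  have hfin : Finite (F × (G ⧸ U) → M) := inferInstance
  -- the kernel
  have hker : ((vals (M := M) X F H U).ker ⊓ Zloc X a H U) ≤ Zsh X a H := by
    rintro d ⟨hd0, hd⟩
    refine ⟨hd.1, hd.2.1, fun x => ?_⟩
    have h0 : ∀ y ∈ F, ∀ g ∈ H, g • y = y → d g = 0 :=
      fun y hy g hg hgy => vals_zero X hd hd0 y hy g hg hgy
    rcases hFX x with ⟨y, hy, h, hh, rfl⟩ | hx
    · have hhH : h ∈ H := hV ⟨(hWle hh.2).2, hh.1⟩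
      exact ⟨_, local_smul ha.mul hd.1 hhH (m := (0 : M)) (fun g hg hgy => by
        rw [h0 y hy g hg hgy, map_zero, sub_zero])⟩
    · obtain ⟨m, hm⟩ := coboundary_of_coprime (H := H) (a := a) (d := d) U (p := p) hM
        (H ⊓ MulAction.stabilizer G x) inf_le_left
        (fun h hh => by
          obtain ⟨e, he, heU⟩ := hx h (hH hh.1) hh.2
          exact ⟨e, he, (hWle heU).1⟩)
        hd.1 (fun g hg hgU => hd.2.2 x g ⟨hg.1, hgU⟩ hg.2)
      exact ⟨m, fun g hg hgx => hm g ⟨hg, hgx⟩⟩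
  have hi : (vals (M := M) X F H U).ker.relIndex (Zloc X a H U) ≠ 0 := by
    have h1 : ((vals (M := M) X F H U).ker).index ≠ 0 := by
      rw [AddSubgroup.index_ker]
      exact Nat.card_ne_zero.2 ⟨⟨0⟩, inferInstance⟩
    intro h
    have h2 := AddSubgroup.relIndex_dvd_index_of_normal (vals (M := M) X F H U).ker (Zloc X a H U)
    rw [h] at h2
    exact h1 (Nat.eq_zero_of_zero_dvd h2)
  rw [← AddSubgroup.inf_relIndex_right] at hi
  intro h
  have h1 := AddSubgroup.relIndex_dvd_of_le_left (Zloc X a H U) hker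
  rw [h] at h1
  exact hi (Nat.eq_zero_of_zero_dvd h1)

end Pool.Agent.Helper21.FS
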