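import Pool.Agent.Helper21.FS.A2

/-!
# Locally trivial classes of an extension
-/

namespace Pool.Agent.Helper21.FS

open Pool.Agent.Helper58.FS

variable {G : Type*} [Group G] [TopologicalSpace G]

/-- An open normal subgroup of an open subgroup of a compact group. -/
theorem exists_open_normal [IsTopologicalGroup G] [CompactSpace G] {U : Subgroup G}
    (hU : IsOpen (U : Set G)) :
    ∃ V : Subgroup G, V.Normal ∧ IsOpen (V : Set G) ∧ V ≤ U := by
  have hfq : Finite (G ⧸ U) := Subgroup.quotient_finite_of_isOpen _ hU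
  have hfi : U.FiniteIndex := Subgroup.finiteIndex_of_finite_quotient
  exact ⟨U.normalCore, inferInstance, Subgroup.isOpen_of_isClosed_of_finiteIndex _
    (U.normalCore_isClosed (Subgroup.isClosed_of_isOpen _ hU)), Subgroup.normalCore_le _⟩

variable (X : Type*) [MulAction G X] {M N Q : Type*} [AddCommGroup M] [AddCommGroup N]
  [AddCommGroup Q]

/-- A3: classes of an extension. -/
theorem a3 [IsTopologicalGroup G] [CompactSpace G] {C : Subgroup G} {p : ℕ} [Fact p.Prime]
    (hA : ArithHyp X C p)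
    {H : Subgroup G} (hH : H ≤ C) (hV : ∃ V : Subgroup G, IsOpen (V : Set G) ∧ V ⊓ C ≤ H)
    {aN : G → N →+ N} {aM : G → M →+ M} {aQ : G → Q →+ Q}
    (hN : Act H aN) (hM : Act H aM) (hQ : Act H aQ) [Finite M]
    (hp : ∃ k : ℕ, ∀ m : M, p ^ k • m = 0) (i : N →+ M) (q : M →+ Q)
    (hi : Function.Injective i) (hq : Function.Surjective q)
    (hex : ∀ m, q m = 0 ↔ ∃ n, i n = m) (hei : ∀ g ∈ H, ∀ n, i (aN g n) = aM g (i n))
    (heq : ∀ g ∈ H, ∀ m, q (aM g m) = aQ g (q m)) (h1 : FinSh X aN H) (h2 : FinSh X aQ H) :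
    FinSh X aM H := by
  classical
  obtain ⟨U0, hU0, hU0M⟩ := hM.cont
  obtain ⟨U, hUn, hU, hUle⟩ := exists_open_normal hU0
  have hfN : Finite N := Finite.of_injective i hi
  -- finiteness for `N`
  have hN1 : (Bsh aN H).relIndex (Zloc X aN H U) ≠ 0 := by
    refine AddSubgroup.relIndex_ne_zero_trans h1 (a2 X hA hH hV hN ?_ U hUn hU ?_)
    · obtain ⟨k, hk⟩ := hp
      exact ⟨k, fun n => hi (by rw [map_nsmul, hk, map_zero])⟩
    · intro u hu
      ext n
      apply hi
      rw [hei u hu.2, hU0M u ⟨hUle hu.1, hu.2⟩]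
      rfl
  let ic : (G → N) →+ (G → M) := i.compLeft G
  let qc : (G → M) →+ (G → Q) := q.compLeft G
  have hic : Function.Injective ic := fun d d' h => funext fun g => hi (congrFun h g)
  have hB : (Bsh aN H).map ic ≤ Bsh aM H := by
    rintro _ ⟨d, ⟨n, hn⟩, rfl⟩
    refine ⟨i n, fun g hg => ?_⟩
    change i (d g) = _
    rw [hn g hg, map_sub, hei g hg]
  have hL : (Bsh aM H).relIndex ((Zloc X aN H U).map ic) ≠ 0 := by
    intro h
    have h3 := AddSubgroup.relIndex_dvd_of_le_left ((Zloc X aN H U).map ic) hB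
    rw [h, AddSubgroup.relIndex_map_map_of_injective _ _ hic] at h3
    exact hN1 (Nat.eq_zero_of_zero_dvd h3)
  -- the classes which become trivial in `Q`
  have hZ1 : (Bsh aQ H).comap qc ⊓ Zsh X aM H ≤ (Zloc X aN H U).map ic ⊔ Bsh aM H := by
    rintro c ⟨⟨mb, hmb⟩, hc1, ⟨W, hW, hc2⟩, hc3⟩
    obtain ⟨m, rfl⟩ := hq mb
    have hc' : ∀ g ∈ H, ∃ n, i n = c g - (aM g m - m) := by
      intro g hg
      rw [← hex, map_sub, map_sub, heq g hg]
      have h3 : q (c g) = aQ g (q m) - q m := hmb g hg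
      rw [h3, sub_self]
    let d : G → N := fun g => if h : ∃ n, i n = c g - (aM g m - m) then Classical.choose h else 0
    have hd : ∀ g ∈ H, i (d g) = c g - (aM g m - m) := by
      intro g hg
      have h3 : d g = Classical.choose (hc' g hg) := dif_pos (hc' g hg)
      rw [h3]
      exact Classical.choose_spec (hc' g hg)
    have hmul : ∀ g ∈ H, ∀ h ∈ H, aM (g * h) m = aM g (aM h m) := by
      intro g hg h hh
      rw [hM.mul g hg h hh]
      rfl
    rw [AddSubgroup.mem_sup]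
    refine ⟨ic d, ⟨d, ⟨?_, ⟨W ⊓ U0, hW.inter hU0, ?_⟩, ?_⟩, rfl⟩, c - ic d, ⟨m, fun g hg => ?_⟩,
      add_sub_cancel _ _⟩
    · intro g hg h hh
      apply hi
      rw [hd _ (H.mul_mem hg hh), map_add, hei g hg, hd g hg, hd h hh, hc1 g hg h hh,
        hmul g hg h hh, map_sub, map_sub]
      abel
    · intro g hg u hu
      apply hi
      have h3 : aM u m = m := by
        rw [hU0M u ⟨hu.1.2, hu.2⟩]
        rfl
      rw [hd _ (H.mul_mem hg hu.2), hd g hg, hc2 g hg u ⟨hu.1.1, hu.2⟩, hmul g hg u hu.2, h3]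
    · intro x g hg hgx
      apply hi
      obtain ⟨mx, hmx⟩ := hc3 x
      have h3 : ∀ m' : M, aM g m' = m' := by
        intro m'
        rw [hU0M g ⟨hUle hg.2, hg.1⟩]
        rfl
      rw [hd g hg.1, hmx g hg.1 hgx, h3, h3, sub_self, sub_self, sub_self, map_zero]
    · change c g - i (d g) = _
      rw [hd g hg]
      abel
  have hBZ1 : (Bsh aM H).relIndex ((Bsh aQ H).comap qc ⊓ Zsh X aM H) ≠ 0 := by
    intro h
    have h3 := AddSubgroup.relIndex_eq_zero_of_le_right hZ1 h
    rw [AddSubgroup.relIndex_sup_right] at h3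
    exact hL h3
  have hZ1Z : ((Bsh aQ H).comap qc ⊓ Zsh X aM H).relIndex (Zsh X aM H) ≠ 0 := by
    rw [AddSubgroup.inf_relIndex_right, AddSubgroup.relIndex_comap]
    have hle : (Zsh X aM H).map qc ≤ Zsh X aQ H := by
      rintro _ ⟨c, ⟨hc1, ⟨W, hW, hc2⟩, hc3⟩, rfl⟩
      refine ⟨fun g hg h hh => ?_, ⟨W, hW, fun g hg u hu => ?_⟩, fun x => ?_⟩
      · change q (c (g * h)) = q (c g) + aQ g (q (c h))
        rw [hc1 g hg h hh, map_add, heq g hg]
      · change q (c (g * u)) = q (c g)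
        rw [hc2 g hg u hu]
      · obtain ⟨mx, hmx⟩ := hc3 x
        refine ⟨q mx, fun g hg hgx => ?_⟩
        change q (c g) = _
        rw [hmx g hg hgx, map_sub, heq g hg]
    intro h
    exact h2 (AddSubgroup.relIndex_eq_zero_of_le_right hle h)
  exact AddSubgroup.relIndex_ne_zero_trans hBZ1 hZ1Z

end Pool.Agent.Helper21.FS
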