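import Pool.Agent.Helper58.FS.Inf

/-!
# From the infinite module to the finite module
-/

namespace Pool.Agent.Helper21.FS

open Pool.Agent.Helper58.FS

/-- A criterion for finite relative index. -/
theorem relIndex_ne_zero_of_fun {B : Type*} [AddCommGroup B] (Y Z : AddSubgroup B) {S : Type*}
    [Finite S] (f : Z → S) (hf : ∀ c c' : Z, f c = f c' → (c' : B) - c ∈ Y) :
    Y.relIndex Z ≠ 0 := by
  unfold AddSubgroup.relIndex AddSubgroup.index
  have hfin : Finite (Z ⧸ Y.addSubgroupOf Z) := by
    apply Finite.of_injective (fun q : Z ⧸ Y.addSubgroupOf Z => f q.out)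
    intro q q' h
    have h1 := hf _ _ h
    rw [← QuotientAddGroup.out_eq' q, ← QuotientAddGroup.out_eq' q']
    apply QuotientAddGroup.eq.2
    rw [AddSubgroup.mem_addSubgroupOf]
    have e : ((-(Quotient.out q) + Quotient.out q' : Z) : B) =
        (Quotient.out q' : Z) - (Quotient.out q : Z) := by
      push_cast
      abel
    rw [e]
    exact h1
  exact Nat.card_pos.ne'

/-- For a finite commutative group the number of classes modulo `p` is the number of elements
killed by `p`. -/
theorem card_quot_eq {N : Type*} [AddCommGroup N] [Finite N] (p : ℕ) :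
    Nat.card (N ⧸ (nsmulAddMonoidHom (α := N) p).range) = Nat.card {x : N // p • x = 0} := by
  have h1 := AddSubgroup.card_eq_card_quotient_mul_card_addSubgroup
    (nsmulAddMonoidHom (α := N) p).range
  have h2 := AddSubgroup.card_eq_card_quotient_mul_card_addSubgroup
    (nsmulAddMonoidHom (α := N) p).ker
  have h3 : Nat.card (N ⧸ (nsmulAddMonoidHom (α := N) p).ker) =
      Nat.card (nsmulAddMonoidHom (α := N) p).range :=
    Nat.card_congr (QuotientAddGroup.quotientKerEquivRange _).toEquiv
  have h4 : Nat.card (nsmulAddMonoidHom (α := N) p).ker = Nat.card {x : N // p • x = 0} :=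
    Nat.card_congr (Equiv.subtypeEquivRight fun x => by
      rw [AddMonoidHom.mem_ker]
      rfl)
  rw [h3, h4, h1, mul_comm] at h2
  have hpos : 0 < Nat.card (nsmulAddMonoidHom (α := N) p).range := Nat.card_pos
  exact Nat.eq_of_mul_eq_mul_left hpos h2

/-- A `p`-primary group with finitely many elements killed by `p` has only finitely many classes
modulo `p`. -/
theorem finite_quot {N : Type*} [AddCommGroup N] {p : ℕ} [hp : Fact p.Prime]
    (hN : ∀ m : N, ∃ n : ℕ, p ^ n • m = 0) (hf : Finite {x : N // p • x = 0}) :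
    Finite (N ⧸ (nsmulAddMonoidHom (α := N) p).range) := by
  classical
  by_contra hinf
  rw [not_finite_iff_infinite] at hinf
  obtain ⟨s, hs⟩ := Infinite.exists_subset_card_eq (N ⧸ (nsmulAddMonoidHom (α := N) p).range)
    (Nat.card {x : N // p • x = 0} + 1)
  let t : Finset N := s.image Quotient.out
  let N₀ : AddSubgroup N := AddSubgroup.closure (t : Set N)
  have hfg : AddGroup.FG N₀ := (AddGroup.fg_iff_addSubgroup_fg N₀).2 ⟨t, rfl⟩
  have hfin : Finite N₀ := by
    apply AddCommGroup.finite_of_fg_isAddTorsion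
    intro x
    obtain ⟨n, hn⟩ := hN x
    rw [isOfFinAddOrder_iff_nsmul_eq_zero]
    refine ⟨p ^ n, pow_pos hp.out.pos n, ?_⟩
    apply Subtype.ext
    exact hn
  have h1 : Nat.card {x : N₀ // p • x = 0} ≤ Nat.card {x : N // p • x = 0} := by
    apply Nat.card_le_card_of_injective (fun x : {x : N₀ // p • x = 0} =>
      (⟨x.1.1, by
        have := congrArg Subtype.val x.2
        exact this⟩ : {x : N // p • x = 0}))
    intro x y h
    apply Subtype.ext
    apply Subtype.ext
    exact congrArg (fun z : {x : N // p • x = 0} => z.1) h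
  have h2 : s.card ≤ Nat.card (N₀ ⧸ (nsmulAddMonoidHom (α := N₀) p).range) := by
    have hmem : ∀ q : s, Quotient.out (q : N ⧸ (nsmulAddMonoidHom (α := N) p).range) ∈ N₀ :=
      fun q => AddSubgroup.subset_closure (Finset.mem_coe.2 (Finset.mem_image_of_mem _ q.2))
    have h3 := Nat.card_le_card_of_injective (fun q : s =>
      (QuotientAddGroup.mk (⟨_, hmem q⟩ : N₀) : N₀ ⧸ (nsmulAddMonoidHom (α := N₀) p).range)) (by
        intro q q' h
        have h4 : (⟨_, hmem q⟩ : N₀) - ⟨_, hmem q'⟩ ∈ (nsmulAddMonoidHom (α := N₀) p).range := by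
          have h5 := QuotientAddGroup.eq.1 h
          rw [← neg_sub, neg_mem_iff, sub_eq_add_neg, add_comm]
          exact h5
        obtain ⟨z, hz⟩ := h4
        have h6 : p • (z : N) = Quotient.out (q : N ⧸ (nsmulAddMonoidHom (α := N) p).range) -
            Quotient.out (q' : N ⧸ (nsmulAddMonoidHom (α := N) p).range) :=
          congrArg Subtype.val hz
        apply Subtype.ext
        rw [← QuotientAddGroup.out_eq' (q : N ⧸ (nsmulAddMonoidHom (α := N) p).range),
          ← QuotientAddGroup.out_eq' (q' : N ⧸ (nsmulAddMonoidHom (α := N) p).range)]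
        apply QuotientAddGroup.eq.2
        refine ⟨-z, ?_⟩
        rw [map_neg]
        change -(p • (z : N)) = _
        rw [h6]
        abel)
    rwa [Nat.card_eq_fintype_card, Fintype.card_coe] at h3
  rw [card_quot_eq] at h2
  omega

section

variable {G : Type*} [Group G] [TopologicalSpace G]
  (X : Type*) [MulAction G X] {M A : Type*} [AddCommGroup M] [AddCommGroup A]

/-- From the infinite module to the finite module. -/
theorem lk1 {H : Subgroup G} {a : G → M →+ M} (ha : ActP H a) {p : ℕ} [Fact p.Prime]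
    (hM : ∀ m : M, ∃ n : ℕ, p ^ n • m = 0) [Finite A] (i : A →+ M) (hi : Function.Injective i)
    (hr : ∀ m, p • m = 0 ↔ ∃ x, i x = m) {b : G → A →+ A} (hb : Act H b)
    (he : ∀ g ∈ H, ∀ x, i (b g x) = a g (i x)) (h : FinShp X a H p) : FinSh X b H := by
  classical
  let F : (G → A) →+ (G → M) :=
    { toFun := fun c g => i (c g)
      map_zero' := by
        funext g
        simp
      map_add' := fun c d => by
        funext g
        simp }
  have hF : ∀ c g, F c g = i (c g) := fun c g => rfl
  have h1 : (Zsh X b H).map F ≤ Zsh X a H ⊓ (Bsh a H).comap (nsmulAddMonoidHom p) := by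
    rintro _ ⟨c, ⟨hc1, ⟨U, hU, hc2⟩, hc3⟩, rfl⟩
    refine ⟨⟨fun g hg h hh => ?_, ⟨U, hU, fun g hg u hu => ?_⟩, fun x => ?_⟩, ?_⟩
    · rw [hF, hF, hF, hc1 g hg h hh, map_add, he g hg]
    · rw [hF, hF, hc2 g hg u hu]
    · obtain ⟨m, hm⟩ := hc3 x
      refine ⟨i m, fun g hg hgx => ?_⟩
      rw [hF, hm g hg hgx, map_sub, he g hg]
    · refine ⟨0, fun g _ => ?_⟩
      change p • i (c g) = _
      rw [(hr _).2 ⟨_, rfl⟩]
      simp
  have h2 : ((Bsh a H).comap F).relIndex (Zsh X b H) ≠ 0 := by
    rw [AddSubgroup.relIndex_comap]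
    intro h0
    exact h (AddSubgroup.relIndex_eq_zero_of_le_right h1 h0)
  -- the invariants
  let N : AddSubgroup M :=
    { carrier := {m | ∀ g ∈ H, a g m = m}
      zero_mem' := fun g _ => map_zero _
      add_mem' := fun {x y} hx hy g hg => by rw [map_add, hx g hg, hy g hg]
      neg_mem' := fun {x} hx g hg => by rw [map_neg, hx g hg] }
  have hNf : Finite {x : N // p • x = 0} := by
    have h3 : ∀ x : {x : N // p • x = 0}, ∃ y : A, i y = (x.1 : M) := fun x => by
      rw [← hr]
      exact congrArg Subtype.val x.2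
    choose f hf using h3
    apply Finite.of_injective f
    intro x y hxy
    apply Subtype.ext
    apply Subtype.ext
    rw [← hf x, ← hf y, hxy]
  have hNp : ∀ m : N, ∃ n : ℕ, p ^ n • m = 0 := fun m => by
    obtain ⟨n, hn⟩ := hM m
    exact ⟨n, Subtype.ext hn⟩
  have hQ := finite_quot hNp hNf
  have h4 : (Bsh b H).relIndex (Zsh X b H ⊓ (Bsh a H).comap F) ≠ 0 := by
    have h5 : ∀ c : (Zsh X b H ⊓ (Bsh a H).comap F : AddSubgroup (G → A)), ∃ m : M,
        ∀ g ∈ H, i (c.1 g) = a g m - m := fun c => c.2.2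
    choose m hm using h5
    have h6 : ∀ c, p • m c ∈ N := by
      intro c g hg
      rw [map_nsmul, ← sub_eq_zero, ← smul_sub, ← hm c g hg, (hr _).2 ⟨_, rfl⟩]
    apply relIndex_ne_zero_of_fun _ _
      (fun c => (QuotientAddGroup.mk (⟨_, h6 c⟩ : N) : N ⧸ (nsmulAddMonoidHom (α := N) p).range))
    intro c c' hcc
    obtain ⟨z, hz⟩ := QuotientAddGroup.eq.1 hcc
    have h7 : p • (z : M) = -(p • m c) + p • m c' := congrArg Subtype.val hz
    have h8 : p • (m c' - m c - z) = 0 := by
      rw [smul_sub, smul_sub, h7]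
      abel
    obtain ⟨x, hx⟩ := (hr _).1 h8
    refine ⟨x, fun g hg => hi ?_⟩
    have h9 : a g (z : M) = z := z.2 g hg
    change i (c'.1 g - c.1 g) = _
    rw [map_sub, map_sub, he g hg, hm c' g hg, hm c g hg, hx, map_sub, map_sub, h9]
    abel
  have h5 := AddSubgroup.relIndex_inf_mul_relIndex (Bsh b H) ((Bsh a H).comap F) (Zsh X b H)
  have h6 : (Bsh b H ⊓ (Bsh a H).comap F).relIndex (Zsh X b H) ≠ 0 := by
    rw [← h5, inf_comm ((Bsh a H).comap F)]
    exact mul_ne_zero h4 h2
  intro h0
  exact h6 (AddSubgroup.relIndex_eq_zero_of_le_left inf_le_left h0)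

end

end Pool.Agent.Helper21.FS
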