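import Pool.Agent.Helper58.FS.Defs

/-!
# A normal subgroup of `p`-power index, from steps of degree `p`
-/

namespace Pool.Agent.Helper21.FS

open Pool.Agent.Helper58.FS

variable {G : Type*} [Group G]

/-- A subgroup of index `p` above a normal subgroup of index `p ^ (k + 1)`. -/
theorem exists_mid {p : ℕ} [hp : Fact p.Prime] {H H' : Subgroup G} (hle : H' ≤ H)
    (hno : ∀ g ∈ H, ∀ h ∈ H', g * h * g⁻¹ ∈ H') {k : ℕ} (hi : H'.relIndex H = p ^ (k + 1)) :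
    ∃ (H₁ : Subgroup G) (θ : G → ZMod p), H' ≤ H₁ ∧ H₁ ≤ H ∧ H'.relIndex H₁ = p ^ k ∧
      (∀ g ∈ H, ∀ h ∈ H, θ (g * h) = θ g + θ h) ∧ (∃ g ∈ H, θ g = 1) ∧
      (∀ g, g ∈ H₁ ↔ g ∈ H ∧ θ g = 0) := by
  classical
  have hN : (H'.subgroupOf H).Normal := by
    constructor
    intro n hn g
    rw [Subgroup.mem_subgroupOf] at hn ⊢
    exact hno g g.2 n hn
  let Q := H ⧸ H'.subgroupOf H
  have hcard : Nat.card Q = p ^ (k + 1) := hi
  have hfin : Finite Q := Nat.finite_of_card_ne_zero (by rw [hcard]; exact pow_ne_zero _ hp.out.ne_zero)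
  obtain ⟨K, hK⟩ := Sylow.exists_subgroup_card_pow_prime (G := Q) p (n := k)
    (by rw [hcard]; exact pow_dvd_pow p (Nat.le_succ k))
  have hKi : K.index = p := by
    have h1 := K.card_mul_index
    rw [hK, hcard, pow_succ] at h1
    exact Nat.eq_of_mul_eq_mul_left (pow_pos hp.out.pos k) h1
  have hKn : K.Normal := by
    apply Subgroup.normal_of_index_eq_minFac_card
    rw [hKi, hcard, Nat.Prime.pow_minFac hp.out (Nat.succ_ne_zero k)]
  have hc2 : Nat.card (Q ⧸ K) = p := hKi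
  have hc3 : Nat.card (Multiplicative (ZMod p)) = p := by
    rw [Nat.card_congr Multiplicative.toAdd, Nat.card_zmod]
  let e : Q ⧸ K ≃* Multiplicative (ZMod p) := mulEquivOfPrimeCardEq hc2 hc3
  let f : H →* Multiplicative (ZMod p) :=
    e.toMonoidHom.comp ((QuotientGroup.mk' K).comp (QuotientGroup.mk' (H'.subgroupOf H)))
  have hfker : ∀ x : H, f x = 1 ↔ QuotientGroup.mk' (H'.subgroupOf H) x ∈ K := by
    intro x
    change e _ = 1 ↔ _
    rw [EmbeddingLike.map_eq_one_iff]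
    exact QuotientGroup.eq_one_iff _
  let H₁ : Subgroup G := (K.comap (QuotientGroup.mk' (H'.subgroupOf H))).map H.subtype
  have hH₁ : ∀ g, g ∈ H₁ ↔ ∃ h : g ∈ H, f ⟨g, h⟩ = 1 := by
    intro g
    constructor
    · rintro ⟨x, hx, rfl⟩
      exact ⟨x.2, (hfker x).2 hx⟩
    · rintro ⟨h, hg⟩
      exact ⟨⟨g, h⟩, (hfker _).1 hg, rfl⟩
  have hle1 : H' ≤ H₁ := by
    intro g hg
    rw [hH₁]
    refine ⟨hle hg, (hfker _).2 ?_⟩
    have : QuotientGroup.mk' (H'.subgroupOf H) ⟨g, hle hg⟩ = 1 := (QuotientGroup.eq_one_iff _).2 hg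
    rw [this]
    exact K.one_mem
  have hle2 : H₁ ≤ H := fun g hg => ((hH₁ g).1 hg).1
  have hrel : H₁.relIndex H = p := by
    have h1 : H₁.subgroupOf H = K.comap (QuotientGroup.mk' (H'.subgroupOf H)) := by
      ext x
      rw [Subgroup.mem_subgroupOf, hH₁]
      constructor
      · rintro ⟨h, hx⟩
        exact (hfker _).1 hx
      · intro hx
        exact ⟨x.2, (hfker _).2 hx⟩
    unfold Subgroup.relIndex
    rw [h1, Subgroup.index_comap_of_surjective _ (QuotientGroup.mk'_surjective _), hKi]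
  refine ⟨H₁, fun g => if h : g ∈ H then Multiplicative.toAdd (f ⟨g, h⟩) else 0, hle1, hle2, ?_,
    ?_, ?_, ?_⟩
  · have h1 := Subgroup.relIndex_mul_relIndex H' H₁ H hle1 hle2
    rw [hi, hrel, pow_succ] at h1
    exact Nat.eq_of_mul_eq_mul_right hp.out.pos h1
  · intro g hg h hh
    simp only [dif_pos hg, dif_pos hh, dif_pos (H.mul_mem hg hh)]
    rw [← toAdd_mul, ← map_mul]
    rfl
  · obtain ⟨x, hx⟩ : ∃ x : H, f x = Multiplicative.ofAdd 1 := by
      have h1 : Function.Surjective f := e.surjective.comp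
        ((QuotientGroup.mk'_surjective _).comp (QuotientGroup.mk'_surjective _))
      exact h1 _
    refine ⟨x, x.2, ?_⟩
    simp only [dif_pos x.2]
    rw [show (⟨(x : G), x.2⟩ : H) = x from rfl, hx]
    rfl
  · intro g
    rw [hH₁]
    constructor
    · rintro ⟨h, hg⟩
      refine ⟨h, ?_⟩
      simp only [dif_pos h, hg]
      rfl
    · rintro ⟨h, hg⟩
      refine ⟨h, ?_⟩
      simp only [dif_pos h] at hg
      exact hg

variable [TopologicalSpace G] (X : Type*) [MulAction G X] {T : Type*} [AddCommGroup T]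

theorem pchain_of {C : Subgroup G} {p : ℕ} [Fact p.Prime] {a : G → T →+ T}
    (hstep : ∀ {H H' : Subgroup G}, H ≤ C → (∃ V : Subgroup G, IsOpen (V : Set G) ∧ V ⊓ C ≤ H) →
      Act H a → ∀ θ : G → ZMod p, (∀ g ∈ H, ∀ h ∈ H, θ (g * h) = θ g + θ h) →
      (∃ g ∈ H, θ g = 1) → (∃ U : Subgroup G, IsOpen (U : Set G) ∧ ∀ u ∈ U ⊓ H, θ u = 0) →
      (∀ g, g ∈ H' ↔ g ∈ H ∧ θ g = 0) → FinSh X a H → FinSh X a H') (k : ℕ) :
    ∀ {H H' : Subgroup G}, H ≤ C → (∃ V : Subgroup G, IsOpen (V : Set G) ∧ V ⊓ C ≤ H) →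
      Act H a → H' ≤ H → (∀ g ∈ H, ∀ h ∈ H', g * h * g⁻¹ ∈ H') → H'.relIndex H = p ^ k →
      (∃ U : Subgroup G, IsOpen (U : Set G) ∧ U ⊓ H ≤ H') → FinSh X a H → FinSh X a H' := by
  induction k with
  | zero =>
    intro H H' _ _ _ hle _ hi _ h
    rw [pow_zero, Subgroup.relIndex_eq_one] at hi
    rwa [le_antisymm hle hi]
  | succ k ih =>
    intro H H' hH hV ha hle hno hi hU h
    obtain ⟨H₁, θ, h1, h2, h3, h4, h5, h6⟩ := exists_mid hle hno hi
    obtain ⟨U, hUo, hUH⟩ := hU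
    have hF : FinSh X a H₁ := by
      refine hstep hH hV ha θ h4 h5 ⟨U, hUo, fun u hu => ?_⟩ h6 h
      exact ((h6 u).1 (h1 (hUH hu))).2
    refine ih (h2.trans hH) ?_ ⟨ha.one, fun g hg h hh => ha.mul g (h2 hg) h (h2 hh), ?_⟩ h1
      (fun g hg h hh => hno g (h2 hg) h hh) h3 ⟨U, hUo, ?_⟩ hF
    · obtain ⟨V, hVo, hVH⟩ := hV
      refine ⟨V ⊓ U, hVo.inter hUo, fun g hg => h1 (hUH ⟨hg.1.2, hVH ⟨hg.1.1, hg.2⟩⟩)⟩
    · obtain ⟨W, hWo, hW⟩ := ha.cont
      exact ⟨W, hWo, fun u hu => hW u ⟨hu.1, h2 hu.2⟩⟩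
    · exact fun g hg => hUH ⟨hg.1, h2 hg.2⟩

end Pool.Agent.Helper21.FS
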