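import Pool.Agent.Helper21.FS.PC
import Pool.Agent.Helper47.FS.PStep

/-!
# A normal subgroup of `p`-power index
-/

namespace Pool.Agent.Helper21.FS

open Pool.Agent.Helper58.FS

variable {G : Type*} [Group G] [TopologicalSpace G] [IsTopologicalGroup G] [CompactSpace G]
  (X : Type*) [MulAction G X] {T : Type*} [AddCommGroup T]

/-- A normal subgroup of `p`-power index. -/
theorem pchain {C : Subgroup G} {p : ℕ} [Fact p.Prime] (hA : ArithHyp X C p)
    {H H' : Subgroup G} (hH : H ≤ C) (hV : ∃ V : Subgroup G, IsOpen (V : Set G) ∧ V ⊓ C ≤ H)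
    {a : G → T →+ T} (ha : Act H a) [Finite T] (hp : ∀ t : T, p • t = 0) (hle : H' ≤ H)
    (hno : ∀ g ∈ H, ∀ h ∈ H', g * h * g⁻¹ ∈ H') (hi : ∃ k : ℕ, H'.relIndex H = p ^ k)
    (hU : ∃ U : Subgroup G, IsOpen (U : Set G) ∧ U ⊓ H ≤ H') (h : FinSh X a H) :
    FinSh X a H' := by
  obtain ⟨k, hk⟩ := hi
  exact pchain_of X (fun hH hV ha θ hθ hs hc hH' h =>
    Pool.Agent.Helper47.FS.pstep X hA hH hV ha hp θ hθ hs hc hH' h) k hH hV ha hle hno hk hU h

end Pool.Agent.Helper21.FS
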